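import Pool.Agent.Run7.h159.QFinal
import Pool.Agent.W753.CZ.Crouzeix

/-!
# The scaled `q`-numerical ranges of all bounded operators: exact constants

`Om A q` is the scaled `q`-numerical range of a bounded operator on a complex inner product space.
The finite-dimensional bound with the constant `cq q` is helper159's `q_bound` (`|q| < 1`) and the
starting theorem `crouzeix_bound` (`|q| = 1`).  Here: compression to a Krylov space (all bounded
operators on all inner product spaces), complex `q`, and the Jordan block, which shows that `cq q`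
is the smallest constant for every `q`.
-/

set_option autoImplicit false

open Polynomial

namespace Run7.h719.CZ

variable {H : Type*} [NormedAddCommGroup H] [InnerProductSpace ℂ H]

/-- The scaled `q`-numerical range `W_q(A) / q`. -/
def Om (A : H →L[ℂ] H) (q : ℂ) : Set ℂ :=
  {z | ∃ x y : H, ‖x‖ = 1 ∧ ‖y‖ = 1 ∧ inner ℂ y x = q ∧ z = inner ℂ y (A x) / q}

/-- The numerical range. -/
def W (A : H →L[ℂ] H) : Set ℂ := {z | ∃ x : H, ‖x‖ = 1 ∧ z = inner ℂ x (A x)}

/-- The constant `max (1, 2|q| / (1 + √(1 - |q|²)))`. -/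
noncomputable def cq (q : ℂ) : ℝ := max 1 (2 * ‖q‖ / (1 + Real.sqrt (1 - ‖q‖ ^ 2)))

/-- The compression of `A` to the subspace `K`. -/
noncomputable def comp (A : H →L[ℂ] H) (K : Submodule ℂ H) [K.HasOrthogonalProjection] :
    K →L[ℂ] K := K.orthogonalProjectionOnto ∘L A ∘L K.subtypeL

theorem comp_apply (A : H →L[ℂ] H) (K : Submodule ℂ H) [K.HasOrthogonalProjection] (x : K) :
    comp A K x = K.orthogonalProjectionOnto (A x) := rfl

theorem comp_inner (A : H →L[ℂ] H) (K : Submodule ℂ H) [K.HasOrthogonalProjection] (x y : K) :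
    inner ℂ y (comp A K x) = inner ℂ (y : H) (A x) := by
  rw [comp_apply, Submodule.inner_orthogonalProjectionOnto_eq_of_mem_left]

theorem comp_pow (A : H →L[ℂ] H) (K : Submodule ℂ H) [K.HasOrthogonalProjection] (x : K) (d : ℕ)
    (hx : ∀ j ≤ d, (A ^ j) (x : H) ∈ K) : ∀ j ≤ d, (((comp A K) ^ j) x : H) = (A ^ j) (x : H) := by
  intro j
  induction j with
  | zero => intro _; simp
  | succ j ih =>
    intro hj
    have h1 := ih (by omega)
    have h2 : ((comp A K) ^ (j + 1)) x = comp A K (((comp A K) ^ j) x) := by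
      rw [pow_succ']; rfl
    have h3 : (A ^ (j + 1)) (x : H) = A ((A ^ j) (x : H)) := by
      rw [pow_succ']; rfl
    rw [h2, comp_apply, h1, ← h3]
    have h4 := hx (j + 1) hj
    have := K.orthogonalProjectionOnto_mem_subspace_eq_self ⟨(A ^ (j + 1)) (x : H), h4⟩
    exact congrArg Subtype.val this

theorem comp_aeval (A : H →L[ℂ] H) (K : Submodule ℂ H) [K.HasOrthogonalProjection] (x : K)
    (p : ℂ[X]) (hx : ∀ j ≤ p.natDegree, (A ^ j) (x : H) ∈ K) :
    ((aeval (comp A K) p) x : H) = (aeval A p) (x : H) := by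
  rw [aeval_eq_sum_range, aeval_eq_sum_range, ContinuousLinearMap.sum_apply,
    ContinuousLinearMap.sum_apply, Submodule.coe_sum]
  refine Finset.sum_congr rfl fun j hj => ?_
  have hj' : j ≤ p.natDegree := by
    have := Finset.mem_range.mp hj
    omega
  rw [ContinuousLinearMap.smul_apply, ContinuousLinearMap.smul_apply, Submodule.coe_smul,
    comp_pow A K x p.natDegree hx j hj']

/-- the bound in finite dimension, complex `q` -/
theorem fin_bound [FiniteDimensional ℂ H] (hdim : 2 ≤ Module.finrank ℂ H) (A : H →L[ℂ] H) (q : ℂ)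
    (h0 : 0 < ‖q‖) (h1 : ‖q‖ ≤ 1) (p : ℂ[X]) (M : ℝ) (hM : ∀ z ∈ Om A q, ‖p.eval z‖ ≤ M) :
    ‖aeval A p‖ ≤ cq q * M := by
  have hnt : Nontrivial H := Module.nontrivial_of_finrank_pos (R := ℂ) (by omega)
  have hc : CompleteSpace H := FiniteDimensional.complete ℂ H
  have hqc : q ≠ 0 := norm_pos_iff.mp h0
  rcases eq_or_lt_of_le h1 with e1 | e1
  · have hw : ∀ w ∈ Pool.Agent.W753.CZ.numRange A, ‖p.eval w‖ ≤ M := by
      rintro w ⟨x, hx, rfl⟩
      have h3 : inner ℂ x (A x) ∈ Om A q := by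
        refine ⟨x, (starRingEnd ℂ) q • x, hx, ?_, ?_, ?_⟩
        · rw [norm_smul, RCLike.norm_conj, e1, hx, mul_one]
        · rw [inner_smul_left, Complex.conj_conj, inner_self_eq_norm_sq_to_K, hx]; simp
        · rw [inner_smul_left, Complex.conj_conj, mul_div_cancel_left₀ _ hqc]
      exact hM _ h3
    have hM0 : 0 ≤ M := by
      obtain ⟨x, hx⟩ := exists_norm_eq H zero_le_one
      exact (norm_nonneg _).trans (hw _ ⟨x, hx, rfl⟩)
    refine (Pool.Agent.W753.CZ.crouzeix_bound A p M hw).trans ?_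
    gcongr
    unfold cq
    refine le_trans ?_ (le_max_right _ _)
    rw [e1]
    norm_num
  · refine Run7.h159.QN.q_bound hdim A ‖q‖ h0 e1 p M ?_
    intro x y hx hy hxy
    have hn : (‖q‖ : ℂ) ≠ 0 := by exact_mod_cast h0.ne'
    have h3 : inner ℂ y (A x) / (‖q‖ : ℂ) ∈ Om A q := by
      refine ⟨x, ((starRingEnd ℂ) q / (‖q‖ : ℂ)) • y, hx, ?_, ?_, ?_⟩
      · rw [norm_smul, norm_div, RCLike.norm_conj, Complex.norm_real, norm_norm,
          div_self h0.ne', hy, mul_one]
      · rw [inner_smul_left, hxy, map_div₀, Complex.conj_conj, Complex.conj_ofReal,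
          div_mul_cancel₀ _ hn]
      · rw [inner_smul_left, map_div₀, Complex.conj_conj, Complex.conj_ofReal]
        field_simp
    exact hM _ h3

/-- the bound for all bounded operators on inner product spaces with two orthonormal vectors -/
theorem gen_bound (u v : H) (hu : ‖u‖ = 1) (hv : ‖v‖ = 1) (huv : inner ℂ u v = 0)
    (A : H →L[ℂ] H) (q : ℂ)
    (h0 : 0 < ‖q‖) (h1 : ‖q‖ ≤ 1) (p : ℂ[X]) (M : ℝ) (hM : ∀ z ∈ Om A q, ‖p.eval z‖ ≤ M)
    (hM0 : 0 ≤ M) : ‖aeval A p‖ ≤ cq q * M := by
  have hc0 : 0 ≤ cq q := le_trans zero_le_one (le_max_left _ _)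
  refine ContinuousLinearMap.opNorm_le_bound _ (by positivity) fun x => ?_
  set S : Set H := ((fun j => (A ^ j) x) '' (Set.Iic p.natDegree)) ∪ {u, v} with hS
  have hSf : S.Finite := ((Set.finite_Iic _).image _).union (Set.toFinite _)
  set K : Submodule ℂ H := Submodule.span ℂ S with hK
  haveI : FiniteDimensional ℂ K := FiniteDimensional.span_of_finite ℂ hSf
  haveI : CompleteSpace K := FiniteDimensional.complete ℂ K
  have hmem : ∀ j ≤ p.natDegree, (A ^ j) x ∈ K := fun j hj =>
    Submodule.subset_span (Or.inl ⟨j, hj, rfl⟩)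
  have hxK : x ∈ K := by simpa using hmem 0 (Nat.zero_le _)
  have huK : u ∈ K := Submodule.subset_span (Or.inr (by simp))
  have hvK : v ∈ K := Submodule.subset_span (Or.inr (by simp))
  have hdim : 2 ≤ Module.finrank ℂ K := by
    have ho : Orthonormal ℂ ![(⟨u, huK⟩ : K), ⟨v, hvK⟩] := by
      rw [orthonormal_iff_ite]
      intro i j
      have hvu : inner ℂ v u = (0 : ℂ) := by rw [← inner_conj_symm, huv, map_zero]
      fin_cases i <;> fin_cases j <;>
        simp [Submodule.coe_inner, inner_self_eq_norm_sq_to_K, hu, hv, huv, hvu]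
    have := ho.linearIndependent.fintype_card_le_finrank
    simpa using this
  have hb := fin_bound (H := K) hdim (comp A K) q h0 h1 p M (by
    rintro z ⟨a, b, ha, hb, hab, rfl⟩
    apply hM
    refine ⟨a, b, by simpa using ha, by simpa using hb, hab, ?_⟩
    rw [comp_inner])
  have h2 := (aeval (comp A K) p).le_opNorm ⟨x, hxK⟩
  have h3 := comp_aeval A K ⟨x, hxK⟩ p hmem
  have h4 : ‖(aeval (comp A K) p) ⟨x, hxK⟩‖ = ‖(aeval A p) x‖ := by
    rw [← h3]; rfl
  rw [h4] at h2
  refine h2.trans ?_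
  have h5 : ‖(⟨x, hxK⟩ : K)‖ = ‖x‖ := rfl
  rw [h5]
  gcongr

end Run7.h719.CZ
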