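import Pool.Agent.Run7.h719.CZ.Comp

/-!
# Nonemptiness, boundedness, and the rank one nilpotent operator
-/

set_option autoImplicit false

open Polynomial

namespace Run7.h719.CZ

variable {H : Type*} [NormedAddCommGroup H] [InnerProductSpace ℂ H]

theorem om_nonempty (u v : H) (hu : ‖u‖ = 1) (hv : ‖v‖ = 1) (huv : inner ℂ u v = 0)
    (A : H →L[ℂ] H) (q : ℂ) (h1 : ‖q‖ ≤ 1) : (Om A q).Nonempty := by
  have hs : 0 ≤ 1 - ‖q‖ ^ 2 := by nlinarith [norm_nonneg q]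
  set s := Real.sqrt (1 - ‖q‖ ^ 2) with hsd
  have hs2 : s ^ 2 = 1 - ‖q‖ ^ 2 := Real.sq_sqrt hs
  have hvu : inner ℂ v u = (0 : ℂ) := by rw [← inner_conj_symm, huv, map_zero]
  refine ⟨_, u, (starRingEnd ℂ) q • u + (s : ℂ) • v, hu, ?_, ?_, rfl⟩
  · have h2 : ‖(starRingEnd ℂ) q • u + (s : ℂ) • v‖ ^ 2 = 1 := by
      rw [norm_add_sq (𝕜 := ℂ), inner_smul_left, inner_smul_right, huv, norm_smul, norm_smul, hu,
        hv, RCLike.norm_conj, Complex.norm_real, Real.norm_eq_abs]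
      simp only [mul_zero, map_zero, mul_one, add_zero]
      rw [sq_abs, hs2]
      ring
    exact (pow_eq_one_iff_of_nonneg (norm_nonneg _) two_ne_zero).mp h2
  · rw [inner_add_left, inner_smul_left, inner_smul_left, hvu, inner_self_eq_norm_sq_to_K, hu]
    simp

theorem om_norm (A : H →L[ℂ] H) (q : ℂ) : ∀ z ∈ Om A q, ‖z‖ ≤ ‖A‖ / ‖q‖ := by
  rintro z ⟨x, y, hx, hy, -, rfl⟩
  rw [norm_div]
  gcongr
  refine (norm_inner_le_norm _ _).trans ?_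
  rw [hy, one_mul]
  have := A.le_opNorm x
  rwa [hx, mul_one] at this

theorem w_norm (A : H →L[ℂ] H) : ∀ z ∈ W A, ‖z‖ ≤ ‖A‖ := by
  rintro z ⟨x, hx, rfl⟩
  refine (norm_inner_le_norm _ _).trans ?_
  rw [hx, one_mul]
  have := A.le_opNorm x
  rwa [hx, mul_one] at this

theorem om_one (A : H →L[ℂ] H) : Om A 1 = W A := by
  ext z
  constructor
  · rintro ⟨x, y, hx, hy, hxy, rfl⟩
    have h1 : y = x := (inner_eq_one_iff_of_norm_eq_one hy hx).mp hxy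
    rw [h1, div_one]
    exact ⟨x, hx, rfl⟩
  · rintro ⟨x, hx, rfl⟩
    refine ⟨x, x, hx, hx, ?_, by rw [div_one]⟩
    rw [inner_self_eq_norm_sq_to_K, hx]
    simp

theorem bdd_image (S : Set ℂ) (R : ℝ) (hS : ∀ z ∈ S, ‖z‖ ≤ R) (p : ℂ[X]) :
    BddAbove ((fun z => ‖p.eval z‖) '' S) := by
  have hc : IsCompact (Metric.closedBall (0 : ℂ) R) := isCompact_closedBall _ _
  obtain ⟨C, hC⟩ := hc.exists_bound_of_continuousOn (f := fun z : ℂ => p.eval z) (by fun_prop)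
  refine ⟨C, ?_⟩
  rintro _ ⟨z, hz, rfl⟩
  exact hC z (by simpa using hS z hz)

/-- splitting off two orthonormal vectors -/
theorem dec (u v : H) (hu : ‖u‖ = 1) (hv : ‖v‖ = 1) (huv : inner ℂ u v = 0) (x y : H) :
    inner ℂ y x = (starRingEnd ℂ) (inner ℂ u y) * inner ℂ u x
      + (starRingEnd ℂ) (inner ℂ v y) * inner ℂ v x
      + inner ℂ (y - (inner ℂ u y : ℂ) • u - (inner ℂ v y : ℂ) • v)
          (x - (inner ℂ u x : ℂ) • u - (inner ℂ v x : ℂ) • v) := by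
  have hvu : inner ℂ v u = (0 : ℂ) := by rw [← inner_conj_symm, huv, map_zero]
  have huu : inner ℂ u u = (1 : ℂ) := by rw [inner_self_eq_norm_sq_to_K, hu]; simp
  have hvv : inner ℂ v v = (1 : ℂ) := by rw [inner_self_eq_norm_sq_to_K, hv]; simp
  have hyu : inner ℂ y u = (starRingEnd ℂ) (inner ℂ u y) := (inner_conj_symm y u).symm
  have hyv : inner ℂ y v = (starRingEnd ℂ) (inner ℂ v y) := (inner_conj_symm y v).symm
  simp only [inner_sub_left, inner_sub_right, inner_smul_left, inner_smul_right, huv, hvu, huu,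
    hvv, hyu, hyv]
  ring

/-- real-variable core -/
theorem six_reals (a b e c d f t : ℝ) (hab : a ^ 2 + b ^ 2 + e ^ 2 = 1)
    (hcd : c ^ 2 + d ^ 2 + f ^ 2 = 1) (ht0 : 0 ≤ t) (ht : t ≤ a * c + b * d + e * f) :
    b * c ≤ (1 + Real.sqrt (1 - t ^ 2)) / 2 := by
  have h1 : b * c + a * d ≤ 1 := by
    nlinarith [sq_nonneg (b - c), sq_nonneg (a - d), sq_nonneg e, sq_nonneg f]
  have h2 : (b * c - a * d) ^ 2 ≤ 1 - t ^ 2 := by
    have h3 : (a * c + b * d + e * f) ^ 2 + (b * c - a * d) ^ 2 + (a * f - e * c) ^ 2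
        + (b * f - e * d) ^ 2 = 1 := by
      have : (a * c + b * d + e * f) ^ 2 + (b * c - a * d) ^ 2 + (a * f - e * c) ^ 2
        + (b * f - e * d) ^ 2 = (a ^ 2 + b ^ 2 + e ^ 2) * (c ^ 2 + d ^ 2 + f ^ 2) := by ring
      rw [this, hab, hcd, one_mul]
    have h4 : t ^ 2 ≤ (a * c + b * d + e * f) ^ 2 := by gcongr
    nlinarith [sq_nonneg (a * f - e * c), sq_nonneg (b * f - e * d)]
  have h4 : b * c - a * d ≤ Real.sqrt (1 - t ^ 2) := by
    refine (le_abs_self _).trans ?_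
    rw [← Real.sqrt_sq_eq_abs]
    exact Real.sqrt_le_sqrt h2
  linarith

/-- the rank one operator `x ↦ ⟨v, x⟩ u` -/
noncomputable def R1 (u v : H) : H →L[ℂ] H := (innerSL ℂ v).smulRight u

theorem R1_apply (u v x : H) : R1 u v x = (inner ℂ v x : ℂ) • u := rfl

theorem R1_norm (u v : H) (hu : ‖u‖ = 1) (hv : ‖v‖ = 1) : 1 ≤ ‖R1 u v‖ := by
  have h1 := (R1 u v).le_opNorm v
  rw [R1_apply, norm_smul, hu, hv, mul_one, mul_one, inner_self_eq_norm_sq_to_K, hv] at h1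
  simpa using h1

theorem R1_om (u v : H) (hu : ‖u‖ = 1) (hv : ‖v‖ = 1) (huv : inner ℂ u v = 0) (q : ℂ)
    (h0 : 0 < ‖q‖) : ∀ z ∈ Om (R1 u v) q,
    ‖z‖ ≤ (1 + Real.sqrt (1 - ‖q‖ ^ 2)) / (2 * ‖q‖) := by
  rintro z ⟨x, y, hx, hy, hxy, rfl⟩
  have hi : inner ℂ y (R1 u v x) = inner ℂ v x * (starRingEnd ℂ) (inner ℂ u y) := by
    rw [R1_apply, inner_smul_right, inner_conj_symm]
  have hsq : ∀ w : H, ‖w‖ = 1 → ‖(inner ℂ u w : ℂ)‖ ^ 2 + ‖(inner ℂ v w : ℂ)‖ ^ 2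
      + ‖w - (inner ℂ u w : ℂ) • u - (inner ℂ v w : ℂ) • v‖ ^ 2 = 1 := by
    intro w hw
    have h := dec u v hu hv huv w w
    rw [inner_self_eq_norm_sq_to_K, inner_self_eq_norm_sq_to_K, hw, mul_comm ((starRingEnd ℂ) _),
      mul_comm ((starRingEnd ℂ) _), Complex.mul_conj, Complex.mul_conj, Complex.normSq_eq_norm_sq,
      Complex.normSq_eq_norm_sq] at h
    have h2 : ((‖(inner ℂ u w : ℂ)‖ ^ 2 + ‖(inner ℂ v w : ℂ)‖ ^ 2
      + ‖w - (inner ℂ u w : ℂ) • u - (inner ℂ v w : ℂ) • v‖ ^ 2 : ℝ) : ℂ) = ((1 : ℝ) : ℂ) := by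
      push_cast
      have h3 := h.symm
      simpa using h3
    exact_mod_cast h2
  have hqn : ‖q‖ ≤ ‖(inner ℂ u x : ℂ)‖ * ‖(inner ℂ u y : ℂ)‖
      + ‖(inner ℂ v x : ℂ)‖ * ‖(inner ℂ v y : ℂ)‖
      + ‖x - (inner ℂ u x : ℂ) • u - (inner ℂ v x : ℂ) • v‖
        * ‖y - (inner ℂ u y : ℂ) • u - (inner ℂ v y : ℂ) • v‖ := by
    rw [← hxy, dec u v hu hv huv x y]
    refine (norm_add₃_le).trans ?_
    rw [norm_mul, norm_mul, RCLike.norm_conj, RCLike.norm_conj,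
      mul_comm ‖(inner ℂ u y : ℂ)‖, mul_comm ‖(inner ℂ v y : ℂ)‖]
    gcongr
    rw [mul_comm]
    exact norm_inner_le_norm _ _
  have h := six_reals _ _ _ _ _ _ ‖q‖ (hsq x hx) (hsq y hy) h0.le hqn
  rw [hi, norm_div, norm_mul, RCLike.norm_conj, div_le_div_iff₀ h0 (by positivity)]
  have h5 : ‖(inner ℂ v x : ℂ)‖ * ‖(inner ℂ u y : ℂ)‖ * (2 * ‖q‖) ≤
      ((1 + Real.sqrt (1 - ‖q‖ ^ 2)) / 2) * (2 * ‖q‖) := by
    gcongr
  calc ‖(inner ℂ v x : ℂ)‖ * ‖(inner ℂ u y : ℂ)‖ * (2 * ‖q‖) ≤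
      ((1 + Real.sqrt (1 - ‖q‖ ^ 2)) / 2) * (2 * ‖q‖) := h5
    _ = (1 + Real.sqrt (1 - ‖q‖ ^ 2)) * ‖q‖ := by ring

/-- any admissible constant on a fixed space of dimension at least two is at least `cq q` -/
theorem lower (u v : H) (hu : ‖u‖ = 1) (hv : ‖v‖ = 1) (huv : inner ℂ u v = 0)
    (q : ℂ) (h0 : 0 < ‖q‖) (h1 : ‖q‖ ≤ 1) (k : ℝ)
    (hk : ∀ (A : H →L[ℂ] H) (p : ℂ[X]),
      ‖aeval A p‖ ≤ k * sSup ((fun z => ‖p.eval z‖) '' Om A q)) : cq q ≤ k := by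
  have hne := om_nonempty u v hu hv huv (R1 u v) q h1
  have : Nontrivial H := ⟨u, 0, by
    intro h
    rw [h, norm_zero] at hu
    exact zero_ne_one hu⟩
  have hk1 : 1 ≤ k := by
    have h := hk (R1 u v) 1
    have e2 : ((fun z => ‖(1 : ℂ[X]).eval z‖) '' Om (R1 u v) q) = {1} := by
      ext t
      constructor
      · rintro ⟨z, -, rfl⟩
        simp
      · intro ht
        obtain ⟨z, hz⟩ := hne
        refine ⟨z, hz, ?_⟩
        rw [Set.mem_singleton_iff] at ht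
        rw [ht]
        simp
    rw [map_one, e2, csSup_singleton, mul_one, norm_one] at h
    exact h
  refine max_le hk1 ?_
  have h := hk (R1 u v) X
  rw [aeval_X] at h
  set R := (1 + Real.sqrt (1 - ‖q‖ ^ 2)) / (2 * ‖q‖) with hR
  have hsup : sSup ((fun z => ‖(X : ℂ[X]).eval z‖) '' Om (R1 u v) q) ≤ R := by
    apply csSup_le (hne.image _)
    rintro _ ⟨z, hz, rfl⟩
    simpa using R1_om u v hu hv huv q h0 z hz
  have h2 : 1 ≤ k * R := (R1_norm u v hu hv).trans (h.trans (by gcongr))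
  have hs0 : 0 < 1 + Real.sqrt (1 - ‖q‖ ^ 2) := by positivity
  rw [div_le_iff₀ hs0]
  have h3 : k * R * (2 * ‖q‖) = k * (1 + Real.sqrt (1 - ‖q‖ ^ 2)) := by
    rw [hR]; field_simp
  have h4 : 1 * (2 * ‖q‖) ≤ k * R * (2 * ‖q‖) := by gcongr
  linarith

/-- the exact constant on a fixed space -/
theorem exact (u v : H) (hu : ‖u‖ = 1) (hv : ‖v‖ = 1) (huv : inner ℂ u v = 0)
    (q : ℂ) (h0 : 0 < ‖q‖) (h1 : ‖q‖ ≤ 1) :
    IsLeast {k : ℝ | ∀ (A : H →L[ℂ] H) (p : ℂ[X]),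
      ‖aeval A p‖ ≤ k * sSup ((fun z => ‖p.eval z‖) '' Om A q)} (cq q) := by
  refine ⟨fun A p => ?_, fun k hk => lower u v hu hv huv q h0 h1 k hk⟩
  have hne := om_nonempty u v hu hv huv A q h1
  have hb := bdd_image (Om A q) _ (om_norm A q) p
  have hM : ∀ z ∈ Om A q, ‖p.eval z‖ ≤ sSup ((fun z => ‖p.eval z‖) '' Om A q) :=
    fun z hz => le_csSup hb ⟨z, hz, rfl⟩
  refine gen_bound u v hu hv huv A q h0 h1 p _ hM ?_
  obtain ⟨z, hz⟩ := hne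
  exact (norm_nonneg _).trans (hM z hz)

end Run7.h719.CZ
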